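import Mathlib
import Pool.Agent.Lib.MP_5deabe_nt_CY.FinalCY

/-!
# The Mazur-Tate conjecture for tame fields and the `p`-adic Birch and Swinnerton-Dyer formula

Let `E` be an elliptic curve over `ℚ` of rank `r`, `1 ≤ r < p`, ordinary at `p`, and let `a` be the
unit root.  Let `t n`, `n ≥ 1`,
be a product of primes congruent to `1` modulo `p ^ n`, subject to (i)-(iii), such that the
`r (r + 1) / 2` elements `⟨x_i, x_j⟩_t`, `i ≤ j`, of `G_t⁺` are independent modulo `p`.

(V) `θ_{F,S} ∈ I^{r+1}` for the cyclic fields `F` of degree `p ^ j`, `j ≤ n`, with degenerate height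
pairing, whose conductor satisfies (i)-(iii) and in which at most `r` primes ramify which do not
divide `t n` (`n ≥ 1`);

(V_W) the same for the elements of the `p`-adic `L`-functions of Mazur, Tate and Teitelbaum for the
cyclic fields of degree `p ^ j`, `j ≤ n`, in `ℚ(ζ_{t p^{n+1}})⁺`, `t = t n`.

**(A)** (V) and (V_W) hold if and only if there is `c ∈ ℤ_p` such that

* `θ_{F,S} ≡ (-1)^{ν(m)} c ∏_{ℓ ∣ m} (#E(𝔽_ℓ)/ℓ) R_F` in `I^r/I^{r+1}` for all real abelian fields
  `F` whose conductor `m` satisfies (i)-(iii),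
* the corresponding formula, with `c` multiplied by the square of `1 - a⁻¹`, holds for the elements
  of the `p`-adic `L`-functions for the subfields of `ℚ(ζ_{t p^{n+1}})⁺` at level `p ^ n`, and
* for `ℚ(ζ_{p^{n+1}})⁺`, for all `n`: this says that the order of vanishing of the `p`-adic
  `L`-function of `E` is at least `r` and that `c R_p` times the square of `1 - a⁻¹` is its leading
  term.

**(B)** Assume (V_W) and that the `p`-adic height pairing is nondegenerate.  Then **Q1 for all real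
abelian fields `F` is equivalent to (V) and the `p`-adic Birch and Swinnerton-Dyer formula** of
Mazur, Tate and Teitelbaum for the order of vanishing and the leading term of the `p`-adic
`L`-function of `E` (in the `S`-depleted form at all finite levels).
-/

open MTate MTate.MTData

namespace Pool.Agent.Results.MP_5deabe_nt.CyclotomicLink

theorem result {p : ℕ} [Fact p.Prime] {D : MTData} (hD : D.Valid p) (hr1 : 1 ≤ D.r)
    (hr : D.r < p) (hI : ∀ m, D.Adm p m → D.Integral p m) (hP : D.Pairing2 p)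
    {a : ℤ_[p]} (ha : D.UnitRoot p a) {w : EQ D.W → EQ D.W → ℤ_[p]ˣ}
    (hIW : D.IntegralW p a) (hPW : D.PairingW p w) (t : ℕ → ℕ)
    (ht : ∀ n, 1 ≤ n → D.Adm p (t n) ∧ (∀ l ∈ (t n).primeFactors, p ^ n ∣ l - 1) ∧
      D.Independent p (t n)) :
    ((∀ n, 1 ≤ n → D.Vanish p n (t n) ∧ D.VanishW p a w n (t n)) ↔ ∃ c : ℤ_[p],
      (∀ m, D.Adm p m → ∀ (G : Type) [CommGroup G] (f : Gp m →* G), IsField m f →
        D.Q1c p c m f) ∧
      (∀ n, 1 ≤ n → ∀ (G : Type) [CommGroup G] (f : Gp (t n * p ^ (n + 1)) →* G),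
        Function.Surjective f → Lev p n G → D.Q1W p a w c (t n) (t n * p ^ (n + 1)) f) ∧
      ∀ n, 1 ≤ n → D.Q1W p a w c 1 (p ^ (n + 1)) (MonoidHom.id _)) ∧
    ((∀ n, 1 ≤ n → D.VanishW p a w n (t n)) → D.NondegW p w →
      ((∀ m, D.Adm p m → ∀ (G : Type) [CommGroup G] (f : Gp m →* G), IsField m f →
        D.Q1 p m f) ↔
      (∀ n, 1 ≤ n → D.Vanish p n (t n)) ∧
        ∀ n, 1 ≤ n → D.Q1W p a w (D.Lalg p 1) 1 (p ^ (n + 1)) (MonoidHom.id _))) :=
  MTData.mainCY hD hr1 hr hI hP ha hIW hPW t ht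

end Pool.Agent.Results.MP_5deabe_nt.CyclotomicLink
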