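import Mathlib
import Pool.Agent.Lib.MP_5deabe_nt_DF.Final

/-!
# Degenerate height pairings and the `p`-part of the Mazur-Tate conjecture

Let `E` be an elliptic curve over `ℚ` of rank `r`, `1 ≤ r < p`.  Let `S` be a set of integers
`n ≥ 1` (for example one integer, or all `n ≥ 1`), and let `t n`, for `n ∈ S`, be a product of
primes congruent to `1` modulo `p ^ n`, subject to (i)-(iii), such that the `r (r + 1) / 2`
elements `⟨x_i, x_j⟩_t`, `i ≤ j`, of `G_t⁺` are independent modulo `p`.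

Consider all real abelian fields `F` whose conductor satisfies (i)-(iii) such that for some
`n ∈ S` the `p`-part of the exponent of `Gal(F/ℚ)` divides `p ^ n`.  The condition

(V) `θ_{F,S} ∈ I^{r+1}` for all cyclic `F` of degree `p ^ j`, `j ≤ n`, with degenerate height
pairing, in which at most `r` primes ramify which do not divide `t n` (`n ∈ S`),

holds if and only if there is `c ∈ ℤ_p` such that

* `θ_{F,S} ≡ (-1)^{ν(m)} c ∏_{ℓ ∣ m} (#E(𝔽_ℓ)/ℓ) R_F` in `I^r/I^{r+1}` for all these fields `F`,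
* Q1 holds for all these fields `F` if and only if, for each `n ∈ S`, it holds for one cyclic field
  of degree `p ^ n` with perfect height pairing modulo `p`.

(For `c = (#Ш Tam(E) / #E(ℚ)_tors²) ∏_{ℓ ∣ N} #E^ns(𝔽_ℓ)/ℓ` the first condition is Q1 for all `F`;
so (V) is necessary for Q1.)
-/

open MTate MTate.MTData

namespace Pool.Agent.Results.MP_5deabe_nt.DegenerateFields

theorem result {p : ℕ} [Fact p.Prime] {D : MTData} (hD : D.Valid p) (hr1 : 1 ≤ D.r)
    (hr : D.r < p) (hI : ∀ m, D.Adm p m → D.Integral p m) (hP : D.Pairing2 p) (S : Set ℕ)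
    (t : ℕ → ℕ) (ht : ∀ n ∈ S, 1 ≤ n ∧ D.Adm p (t n) ∧
      (∀ l ∈ (t n).primeFactors, p ^ n ∣ l - 1) ∧ D.Independent p (t n)) :
    (∀ n ∈ S, D.Vanish p n (t n)) ↔ ∃ c : ℤ_[p],
      (∀ n ∈ S, ∀ m, D.Adm p m → ∀ (G : Type) [CommGroup G] (f : Gp m →* G), IsField m f →
        Lev p n G → D.Q1c p c m f) ∧
      ((∀ n ∈ S, ∀ m, D.Adm p m → ∀ (G : Type) [CommGroup G] (f : Gp m →* G), IsField m f →
        Lev p n G → D.Q1 p m f) ↔
        ∀ n ∈ S, ∃ (m : ℕ) (f : Gp m →* Multiplicative (ZMod (p ^ n))), D.Adm p m ∧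
          IsField m f ∧ D.Perfect p m f ∧ D.Q1 p m f) := by
  obtain ⟨h1, h2⟩ := MTData.main hD hr1 hr hI hP S t ht
  constructor
  · intro hV
    obtain ⟨c, hc⟩ := h1.mp hV
    exact ⟨c, hc, fun h => (h2.mp h).2, fun h => h2.mpr ⟨hV, h⟩⟩
  · rintro ⟨c, hc, -⟩
    exact h1.mpr ⟨c, hc⟩

end Pool.Agent.Results.MP_5deabe_nt.DegenerateFields
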