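import Mathlib
import Pool.Agent.Lib.MP_5deabe_nt_DN.Main3

/-!
# The `p`-part of the Mazur-Tate conjecture and densities of real abelian fields

Let `E` be an elliptic curve over `ℚ` of rank `r ≥ 1` and `F₀` a real abelian field of conductor
`m₀` with group `G`.  For a finite abelian group `C ≠ 1` whose exponent divides `p ^ n` consider
all surjective homomorphisms `ψ : Gal(ℚ(ζ_m)⁺/ℚ) → C` of conductor `m`, where `m₀ m` is subject to
(i)-(iii); they correspond to the real abelian fields `F_ψ` with `Gal(F_ψ/ℚ) ≅ C`, each of them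
counted once for every isomorphism.  We order them by their conductors: `DS ... s` is the sum of
`m ^ (-s)` over all `ψ` (with some property), which converges for `s > 1`.

* (A) Let `B = r #G (#C)² p ^ (n r)`.  Q1 holds for `F₀` if and only if the `ψ` for which Q1 holds
  for `F₀ F_ψ` are at least `2 ^ (-B - 1)` of all `ψ`, in the sense of the sums for every `s > 1`
  which is so close to `1` that the sum of `l ^ (-s)` over the primes `l ≡ 1` modulo `p ^ n` for
  which `m₀ l` satisfies (i)-(iii) is larger than `2 B + 1` (by Chebotarev's theorem and (iv) this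
  sum tends to infinity when `s → 1`).  So Q1 holds for `F₀` if and only if these `ψ` have a lower
  Dirichlet density `≥ 2 ^ (-B - 1)`.
* (B) If Q1 fails for one field `F₀ F_ψ`, where `ψ` has the conductor `m₁`, then the `ψ` for which
  it fails have a lower Dirichlet density `≥ 1/((2 ^ (r + 1) - 1) ∏_{l ∣ m₁} (l + #C - 1))`.
* (C) Q1 holds for all real abelian fields if and only if it holds for `ℚ` (`L(E, 1) = 0`) and for
  each finite abelian `p`-group `C ≠ 1` the fields with group `C` for which it fails have the lower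
  density `0`.
* (D) Let `r < p` and suppose that Q1 holds for `ℚ`.  Then Q1 holds for at least
  `(p - 1)/(p ^ (r (r + 1)/2 + 1) - 1)` of all cyclic fields of degree `p`, and for at least
  `(p - 1)/(p ^ (r + 1) - 1)` of them if `θ_F ∈ I ^ r` for all of them.
-/

open MTate

namespace Pool.Agent.Results.MP_5deabe_nt.Density

theorem result {p : ℕ} [Fact p.Prime] {D : MTData} (hD : D.Valid p) (hr : 1 ≤ D.r)
    (hI : ∀ m, D.Adm p m → D.Integral p m) (hP : ∀ m, D.Adm p m → D.Pairing p m) :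
    (∀ m₀, D.Adm p m₀ → ∀ (G : Type) [CommGroup G] (f : Gp m₀ →* G), IsField m₀ f →
      ∀ (C : Type) [CommGroup C] [Finite C] [Nontrivial C] (n : ℕ), (∀ c : C, c ^ p ^ n = 1) →
      -- convergence
      (∀ (P : ∀ m, (Gp m →* C) → Prop) (s : ℝ), 1 < s → Summable fun m : ℕ =>
        (NF C (fun m ψ => D.Adm p (m₀ * m) ∧ P m ψ) m : ℝ) * (m : ℝ) ^ (-s)) ∧
      -- (A)
      (∀ (B : ℕ) (s : ℝ), B = D.r * Nat.card G * Nat.card C ^ 2 * p ^ (n * D.r) → 1 < s →
        2 * (B : ℝ) + 1 < ∑' l : Nat.Primes, (Set.indicator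
          {l : ℕ | D.Adm p (m₀ * l) ∧ p ^ n ∣ l - 1} (fun l => (l : ℝ) ^ (-s)) l) →
        (D.Q1 p m₀ f ↔ 1 + DS (fun m => D.Adm p (m₀ * m)) C (fun _ _ => True) s ≤
          2 ^ (B + 1) * DS (fun m => D.Adm p (m₀ * m)) C (fun m ψ => D.Q1At p (m₀ * m)
            ((f.comp (res (Dvd.intro m rfl))).prod (ψ.comp (res (Dvd.intro_left m₀ rfl))))) s)) ∧
      -- (B)
      (∀ m₁, D.Adm p (m₀ * m₁) → ∀ ψ₁ : Gp m₁ →* C, IsField m₁ ψ₁ →
        ¬ D.Q1At p (m₀ * m₁) ((f.comp (res (Dvd.intro m₁ rfl))).prod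
          (ψ₁.comp (res (Dvd.intro_left m₀ rfl)))) → ∀ s : ℝ, 1 < s →
        1 + DS (fun m => D.Adm p (m₀ * m)) C (fun _ _ => True) s ≤
          (2 ^ (D.r + 1) - 1) * (∏ l ∈ m₁.primeFactors, ((l : ℝ) ^ s + Nat.card C - 1)) *
            DS (fun m => D.Adm p (m₀ * m)) C (fun m ψ => ¬ D.Q1At p (m₀ * m)
              ((f.comp (res (Dvd.intro m rfl))).prod
                (ψ.comp (res (Dvd.intro_left m₀ rfl))))) s)) ∧
    -- (C)
    ((∀ m, D.Adm p m → ∀ (G : Type) [CommGroup G] (f : Gp m →* G), IsField m f → D.Q1 p m f) ↔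
      (∀ (G : Type) [CommGroup G] (f : Gp 1 →* G), IsField 1 f → D.Q1 p 1 f) ∧
      ∀ (C : Type) [CommGroup C] [Finite C] [Nontrivial C], IsPGroup p C →
        ∀ ε : ℝ, 0 < ε → ∃ s : ℝ, 1 < s ∧ s ≤ 2 ∧
          DS (D.Adm p) C (fun m ψ => ¬ D.Q1 p m ψ) s ≤
            ε * (1 + DS (D.Adm p) C (fun _ _ => True) s)) ∧
    -- (D)
    (D.r < p → (∀ (G : Type) [CommGroup G] (f : Gp 1 →* G), IsField 1 f → D.Q1 p 1 f) →
      ∀ j : ℕ, 1 ≤ j → j ≤ D.r → (j = 1 ∨ ∀ m, D.Adm p m → ∀ f : Gp m →* Cpn p 1,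
        IsField m f → ∃ θ, D.IsTheta p m f θ ∧ θ ∈ augI ℤ_[p] (Cpn p 1) ^ j) →
      ∀ s : ℝ, 1 < s →
      ((p : ℝ) - 1) * (1 + DS (D.Adm p) (Cpn p 1) (fun _ _ => True) s) ≤
        ((p : ℝ) ^ (∑ k ∈ Finset.Icc j D.r, k + 1) - 1) *
          (1 + DS (D.Adm p) (Cpn p 1) (fun m ψ => D.Q1 p m ψ) s)) := by
  refine ⟨?_, MTData.q1_iff_dens hD hI hP, ?_⟩
  · intro m₀ h₀ G _ f hf C _ _ _ n hC
    refine ⟨fun P s hs => ?_, fun B s hB hs hdiv => ?_, fun m₁ h₁ ψ₁ hψ₁ hQ s hs => ?_⟩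
    · exact summableG hD.ne_two hC (MTData.isLvlG h₀) (by rwa [mul_one]) P hs
    · exact MTData.densG_A hD hr hI hP h₀ hf hC hB hs hdiv
    · exact MTData.densG_B hD hI hP h₀ hf hC h₁ hψ₁ hQ hs
  · intro hrp hQ j hj1 hjr hj s hs
    exact MTData.dens_cyc hD hr hrp hI hP hQ hj1 hjr hj hs

end Pool.Agent.Results.MP_5deabe_nt.Density
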