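import Mathlib
import Pool.Agent.Lib.MP_5deabe_nt.Main

/-!
# Reduction of the `p`-part of the Mazur-Tate conjecture to few ramified primes

For an elliptic curve `E` over `ℚ` of rank `r`, a prime `p` and an integer `M` subject to (i)-(iii),
the statement Q1 for all real abelian fields `F ⊆ ℚ(ζ_M)⁺` is equivalent to the `p`-integrality of
their modular elements together with Q1 for the following fields `F` of degree a power of `p`:

* if `p ≤ r`: those in which at most `r` primes ramify;
* if `r < p`: the cyclic ones in which less than `r` primes ramify (and `F = ℚ`), these primes being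
  totally ramified, and for every `m ∣ M` with exactly `r ≥ 1` prime factors, all congruent to `1`
  modulo `p ^ n`, `n ≥ 1`, one cyclic field of conductor `m` and degree `p ^ n` in which all primes
  dividing `m` are totally ramified.
-/

open MTate

namespace Pool.Agent.Results.MP_5deabe_nt.Reduction

theorem result {p : ℕ} [Fact p.Prime] {D : MTData} (hD : D.Valid p) {M : ℕ} (hM : D.Adm p M) :
    (∀ m, m ∣ M → ∀ (G : Type) [CommGroup G] (f : Gp m →* G), IsField m f → D.Q1 p m f) ↔
    (∀ m, m ∣ M → ∀ (G : Type) [CommGroup G] (f : Gp m →* G), IsField m f →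
      ∃ θ, D.IsTheta p m f θ) ∧
    (∀ m, m ∣ M →
      (m = 1 ∨ m.primeFactors.card < D.r ∨ (m.primeFactors.card = D.r ∧ p ≤ D.r)) →
      ∀ (G : Type) [CommGroup G] (f : Gp m →* G), IsField m f → (∃ n, Nat.card G = p ^ n) →
      (D.r < p → IsCyclic G ∧ TotRam m f) → D.Q1 p m f) ∧
    (D.r < p → ∀ m, m ∣ M → m ≠ 1 → m.primeFactors.card = D.r → ∀ n, 1 ≤ n →
      (∀ l ∈ m.primeFactors, p ^ n ∣ l - 1) → ∃ f : Gp m →* Multiplicative (ZMod (p ^ n)),
        IsField m f ∧ TotRam m f ∧ D.Q1 p m f) :=
  MTData.reduction hD hM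

end Pool.Agent.Results.MP_5deabe_nt.Reduction
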